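import Pool.Agent.H743.CM.Final

/-!
MP_ac6992_gt, Q1, in the negative: the mapping class group of the plane minus a Cantor set contains
a non-amenable (three-generated) subgroup `H` all of whose homogeneous quasimorphisms are
homomorphisms, so that the quotient of the space of homogeneous quasimorphisms of `H` by the
homomorphisms to the reals is zero.
-/

set_option autoImplicit false

namespace Pool.Agent.Results.MP_ac6992_gt.WreathSubgroup

open Pool.Agent.H659R3.BigMCG Pool.Agent.H743.CM

/-- `φ` is a homogeneous quasimorphism on `G`. -/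
def IsHQ {G : Type} [Group G] (φ : G → ℝ) : Prop := IsQuasimorphism φ ∧ IsHomogeneous φ

theorem isHQ_zero {G : Type} [Group G] : IsHQ (0 : G → ℝ) :=
  ⟨⟨0, fun g h => by simp⟩, fun g n => by simp⟩

theorem isHQ_add {G : Type} [Group G] {φ ψ : G → ℝ} (h1 : IsHQ φ) (h2 : IsHQ ψ) :
    IsHQ (φ + ψ) := by
  obtain ⟨⟨D, hD⟩, hφ⟩ := h1
  obtain ⟨⟨E, hE⟩, hψ⟩ := h2
  refine ⟨⟨D + E, fun g h => ?_⟩, fun g n => ?_⟩
  · have e : (φ + ψ) (g * h) - (φ + ψ) g - (φ + ψ) h =
        (φ (g * h) - φ g - φ h) + (ψ (g * h) - ψ g - ψ h) := by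
      simp only [Pi.add_apply]; ring
    rw [e]
    exact (abs_add_le _ _).trans (add_le_add (hD g h) (hE g h))
  · simp only [Pi.add_apply]
    rw [hφ, hψ]; ring

theorem isHQ_smul {G : Type} [Group G] (c : ℝ) {φ : G → ℝ} (h1 : IsHQ φ) : IsHQ (c • φ) := by
  obtain ⟨⟨D, hD⟩, hφ⟩ := h1
  refine ⟨⟨|c| * D, fun g h => ?_⟩, fun g n => ?_⟩
  · have e : (c • φ) (g * h) - (c • φ) g - (c • φ) h = c * (φ (g * h) - φ g - φ h) := by
      simp only [Pi.smul_apply, smul_eq_mul]; ring
    rw [e, abs_mul]
    exact mul_le_mul_of_nonneg_left (hD g h) (abs_nonneg c)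
  · simp only [Pi.smul_apply, smul_eq_mul]
    rw [hφ]; ring

/-- The real vector space `Q(G)` of homogeneous quasimorphisms of a group `G`. -/
def Q (G : Type) [Group G] : Submodule ℝ (G → ℝ) where
  carrier := {φ | IsHQ φ}
  zero_mem' := isHQ_zero
  add_mem' := isHQ_add
  smul_mem' := fun c _ h => isHQ_smul c h

/-- `φ` is a homomorphism to the additive group of the reals. -/
def IsHom {G : Type} [Group G] (φ : G → ℝ) : Prop := ∀ g h : G, φ (g * h) = φ g + φ h

theorem isHom_zero {G : Type} [Group G] : IsHom (0 : G → ℝ) := fun g h => by simp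

theorem isHom_add {G : Type} [Group G] {φ ψ : G → ℝ} (h1 : IsHom φ) (h2 : IsHom ψ) :
    IsHom (φ + ψ) := fun g h => by
  simp only [Pi.add_apply]
  rw [h1, h2]; ring

theorem isHom_smul {G : Type} [Group G] (c : ℝ) {φ : G → ℝ} (h1 : IsHom φ) : IsHom (c • φ) :=
  fun g h => by
  simp only [Pi.smul_apply, smul_eq_mul]
  rw [h1]; ring

/-- The subspace of `Q(G)` formed by the homomorphisms from `G` to the reals. -/
def homs (G : Type) [Group G] : Submodule ℝ (Q G) where
  carrier := {φ | IsHom (φ : G → ℝ)}
  zero_mem' := isHom_zero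
  add_mem' := fun h1 h2 => isHom_add h1 h2
  smul_mem' := fun c _ h => isHom_smul c h

/-- The quotient of `Q(G)` by the homomorphisms to the reals. -/
abbrev QTilde (G : Type) [Group G] : Type := Q G ⧸ homs G

/-- The quotient of `Q(G)` by the homomorphisms to the reals is finite-dimensional, of dimension
`0`. -/
def DimQTildeZero (G : Type) [Group G] : Prop :=
  Module.Finite ℝ (QTilde G) ∧ Module.finrank ℝ (QTilde G) = 0

/-- The complement of `C` in the plane. -/
abbrev PlaneMinus (C : Set ℂ) : Type := {z : ℂ // z ∉ C}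

/-- The orientation of the complement of `C` is that of the plane: every chart of the oriented atlas
is the inclusion. -/
def IsPlanar {C : Set ℂ} (inst : OrientedSurface (PlaneMinus C)) : Prop :=
  ∀ φ ∈ inst.charts, ∀ z : PlaneMinus C, z ∈ φ.source → φ z = (z : ℂ)

/-- There are a Cantor set `C` in the plane and a finitely generated, non-amenable subgroup `H` of
the mapping class group of the plane minus `C` such that the quotient of the space of homogeneous
quasimorphisms of `H` by the homomorphisms has dimension `0`. -/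
theorem result :
    ∃ C : Set ℂ, Nonempty (C ≃ₜ cantorSet) ∧
      ∃ inst : OrientedSurface (PlaneMinus C), IsPlanar inst ∧
        ∃ H : Subgroup (Map (PlaneMinus C)), H.FG ∧ ¬ IsAmenable H ∧ DimQTildeZero H := by
  have hC : Nonempty (CC ≃ₜ cantorSet) := by
    obtain ⟨e⟩ := CT_good.homeo
    refine ⟨Homeomorph.trans ?_ e⟩
    exact
      { toFun := fun z => ⟨(z : ℂ).re, z.2.2⟩
        invFun := fun x => ⟨((x : ℝ) : ℂ), Complex.ofReal_im _, by simp⟩
        left_inv := fun z => Subtype.ext (Complex.ext rfl (by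
          simp only [Complex.ofReal_im]; exact z.2.1.symm))
        right_inv := fun x => Subtype.ext rfl
        continuous_toFun := (Complex.continuous_re.comp continuous_subtype_val).subtype_mk _
        continuous_invFun :=
          (Complex.continuous_ofReal.comp continuous_subtype_val).subtype_mk _ }
  have hH : Subsingleton (QTilde HG) := by
    rw [Submodule.Quotient.subsingleton_iff, eq_top_iff]
    rintro φ -
    intro g h
    exact HG_quasi φ.2.1 φ.2.2 g h
  refine ⟨CC, hC, inferInstanceAs (OrientedSurface SS), ?_, HG, HG_fg, HG_not_amenable, ?_, ?_⟩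
  · rintro _ rfl z -
    exact inc_apply z
  · infer_instance
  · exact Module.finrank_zero_of_subsingleton

end Pool.Agent.Results.MP_ac6992_gt.WreathSubgroup
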